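import Pool.Agent.P.MP_824f38_ag.F.Final

/-! The vanishing tables of the Du Bois complexes of `n`-dimensional complex varieties. -/

namespace Pool.Agent.Results.MP_824f38_ag.Classification

open Pool.Agent.P.MP_824f38_ag AlgebraicGeometry

theorem result (n : ℕ) (T : Fin (n + 1) → Fin (n + 1) → Prop) :
    (∃ (Y : Scheme.{0}) (f : Y ⟶ Spec (CommRingCat.of ℂ)), IsReduced Y ∧ IsSeparated f ∧
      LocallyOfFiniteType f ∧ QuasiCompact f ∧ topologicalKrullDim Y = n ∧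
      ∀ p q : Fin (n + 1), T p q ↔ DBNonzero f p q) ↔
    ((∀ p, T p 0) ∧ (∀ p q, T p q → (p : ℕ) + q ≤ n) ∧
      ∀ p q, T p q → 1 ≤ (q : ℕ) → (p : ℕ) + q = n →
        ∃ p' q' : Fin (n + 1), p' < p ∧ (p' : ℕ) + q' + 1 = n ∧ T p' q') := by
  constructor
  · rintro ⟨Y, f, -, -, _, -, hn, hT⟩
    refine ⟨fun p => (hT p 0).2 (F.nec_b hn (Nat.le_of_lt_succ p.2)), ?_, ?_⟩
    · rintro p ⟨_ | q, hq⟩ h
      · exact Nat.le_of_lt_succ p.2
      · exact F.nec_a hn ((hT _ _).1 h)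
    · rintro p ⟨_ | q, hq⟩ h h1 e
      · exact absurd h1 (Nat.not_succ_le_zero 0)
      · obtain ⟨p', q', k1, k2, k3⟩ := F.nec_c hn ((hT _ _).1 h) e
        exact ⟨⟨p', by omega⟩, ⟨q', by omega⟩, k1, k2, (hT _ _).2 k3⟩
  · rintro ⟨h0, h1, h2⟩
    obtain ⟨R, i1, i2, k1, k2, k3, -, X, k5, -, k7⟩ := DB.exists_table n
      (fun p q => ∃ a b : Fin (n + 1), (a : ℕ) = p ∧ (b : ℕ) = q + 1 ∧ T a b)
      (by
        rintro p q ⟨a, b, rfl, hb, h⟩
        have := h1 a b h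
        omega)
      (by
        rintro p q ⟨a, b, rfl, hb, h⟩ hn
        obtain ⟨p', q', hp, hq, h'⟩ := h2 a b h (by omega) (by omega)
        have : (p' : ℕ) < a := hp
        exact ⟨p', q' - 1, hp, by omega, p', q', rfl, by omega, h'⟩)
    have hd := (F.spec_dim R).trans k3
    haveI := F.spec_ft (R := R)
    refine ⟨_, Spec.map (CommRingCat.ofHom (algebraMap ℂ R)), inferInstance, inferInstance,
      inferInstance, inferInstance, hd, fun p q => ?_⟩
    obtain ⟨_ | q, hq⟩ := q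
    · exact ⟨fun _ => F.nec_b hd (Nat.le_of_lt_succ p.2), fun _ => h0 p⟩
    · refine Iff.symm (((F.spec_iff k5.toR p q).trans (k7 p q)).trans
        ⟨?_, fun h => ⟨p, _, rfl, rfl, h⟩⟩)
      rintro ⟨a, b, ha, hb, h⟩
      rwa [Fin.ext ha, show b = ⟨q + 1, hq⟩ from Fin.ext hb] at h

end Pool.Agent.Results.MP_824f38_ag.Classification
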